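import Mathlib
import Pool.Agent.H75.UltraChain

set_option autoImplicit false

namespace Pool.Agent.Results.MP_31a5b6_al.NoPrimes

open Pool.Agent.H75.UltraChain Pool.Agent.H75.LGroup

/-- There is a chain with a doubly transitive lattice-ordered group of automorphisms of bounded
support in which every strictly positive element is the join of two disjoint strictly positive
elements. -/
theorem result :
    ∃ (T : Type) (_ : LinearOrder T) (L : Subgroup (T ≃o T)),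
      (∃ a b c : T, a < b ∧ b < c) ∧
      (∀ f ∈ L, ∀ g ∈ L, (∃ h ∈ L, ∀ t, h t = max (f t) (g t)) ∧
        ∃ h ∈ L, ∀ t, h t = min (f t) (g t)) ∧
      (∀ r₁ r₂ s₁ s₂ : T, r₁ < r₂ → s₁ < s₂ → ∃ f ∈ L, f r₁ = s₁ ∧ f r₂ = s₂) ∧
      (∀ f ∈ L, ∃ t₁ t₂ : T, ∀ s, s < t₁ ∨ t₂ < s → f s = s) ∧
      ∀ f ∈ L, (∀ t, t ≤ f t) → f ≠ 1 →
        ∃ f₁ ∈ L, ∃ f₂ ∈ L, f₁ ≠ 1 ∧ f₂ ≠ 1 ∧ (∀ t, min (f₁ t) (f₂ t) = t) ∧
          ∀ t, max (f₁ t) (f₂ t) = f t :=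
  ⟨TW, inferInstance, LL, three,
    fun f hf g hg => ⟨⟨_, (LL_lattice f g hf hg).1, fun _ => rfl⟩,
      ⟨_, (LL_lattice f g hf hg).2, fun _ => rfl⟩⟩,
    LL_trans, fun _ hf => hf.2, LL_split⟩

end Pool.Agent.Results.MP_31a5b6_al.NoPrimes
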